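import Pool.Agent.H408Z.Mix.Main

/-!
# The uniform mixing time of random walk on dynamical percolation on transitive graphs

Positive answer to the second question, with an absolute constant.

Outline. Let `F_u(z)` be the `L²` distance from stationarity at time `u` of the full process started
at `z`. The mean of `F_u²` is the trace of the semigroup minus one, and a comparison of quadratic
forms bounds the trace by that of the product of a slowed simple random walk and the independent
resampling of the edges. The function `F_u` is invariant under the automorphisms of the graph, and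
on invariant functions the Efron-Stein inequality gives the spectral gap `μ`. After the time that
the environment needs to mix uniformly the transition density is at most `3|V|`. Since
`F_{s+u} ≤ P_s F_u`, these three facts bound `F` uniformly.
-/

namespace Pool.Agent.Results.MP_6c8c83_pr.AUniformMixing

open Pool.Agent.H408Z.Mix

/-- There is an absolute constant `C` such that for every finite connected vertex-transitive graph
and all `μ ∈ (0, 1]`, `p ∈ (0, 1)` the `L^∞` mixing time of the full process is at most
`C ((μ p)⁻¹ t + μ⁻¹ |log (1 - p)|)`, where `t` is the `L^∞` mixing time of simple random walk. -/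
theorem result : ∃ C : ℝ, ∀ (V : Type) [Fintype V] [DecidableEq V] (G : SimpleGraph V)
    [DecidableRel G.Adj], G.Connected → (∀ x y : V, ∃ φ : G ≃g G, φ x = y) →
    ∀ μ ∈ Set.Ioc (0 : ℝ) 1, ∀ p ∈ Set.Ioo (0 : ℝ) 1,
      tmixInf (genM G μ p) (stat G p) ≤
        C * ((μ * p)⁻¹ * tmixInf (srwM G) (fun _ => (Fintype.card V : ℝ)⁻¹) +
          μ⁻¹ * |Real.log (1 - p)|) :=
  ⟨200, fun _ _ _ _ _ hc ht _ hμ _ hp => tmix_le hμ ⟨hp.1, hp.2.le⟩ hp.2 hc ht⟩

end Pool.Agent.Results.MP_6c8c83_pr.AUniformMixing
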